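import Pool.Agent.Helper93.PL.St
import Pool.Agent.Helper28.PC.Mert

/-!
# MP_d466de_nt, project PL, module MER: `(W / φ(W)) ^ k ≤ ε w`
-/

set_option autoImplicit false

open Finset Filter Topology

namespace Pool.Agent.Helper54.PL

/-- `1 / (1 - x) ≤ exp (2 x)` on `[0, 1/2]` -/
theorem inv_le_exp {x : ℝ} (h0 : 0 ≤ x) (h1 : x ≤ 1 / 2) : (1 - x)⁻¹ ≤ Real.exp (2 * x) := by
  have h2 : 0 < 1 - x := by linarith
  have h3 : (1 - x)⁻¹ ≤ 1 + 2 * x := by
    rw [inv_le_iff_one_le_mul₀ h2]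
    nlinarith
  exact h3.trans (by linarith [Real.add_one_le_exp (2 * x)])

theorem ratio_le (w : ℕ) : (primorial w : ℝ) / Nat.totient (primorial w) ≤
    Real.exp (2 * ∑ p ∈ w.primesLE, (1 : ℝ) / p) := by
  have hW : 0 < primorial w := primorial_pos w
  have hW' : (0 : ℝ) < primorial w := by exact_mod_cast hW
  have h1 : ((Nat.totient (primorial w) : ℕ) : ℝ) = primorial w * ∏ p ∈ w.primesLE, (1 - (p : ℝ)⁻¹) := by
    have h := Nat.totient_eq_mul_prod_factors (primorial w)
    rw [primeFactors_primorial] at h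
    have h2 := congrArg (fun q : ℚ => (q : ℝ)) h
    push_cast at h2
    exact h2
  have hpos : ∀ p ∈ w.primesLE, (0 : ℝ) < 1 - (p : ℝ)⁻¹ := by
    intro p hp
    have h2 : 2 ≤ p := (Nat.prime_of_mem_primesLE hp).two_le
    have h3 : (2 : ℝ) ≤ p := by exact_mod_cast h2
    have : (p : ℝ)⁻¹ ≤ 1 / 2 := by
      rw [inv_le_comm₀ (by linarith) (by norm_num)]
      norm_num
      exact h2
    linarith
  have hP : 0 < ∏ p ∈ w.primesLE, (1 - (p : ℝ)⁻¹) := Finset.prod_pos hpos
  rw [h1, div_mul_eq_div_div, div_self hW'.ne', one_div, ← Finset.prod_inv_distrib, Finset.mul_sum, Real.exp_sum]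
  refine Finset.prod_le_prod (fun p hp => inv_nonneg.2 (hpos p hp).le) fun p hp => ?_
  have h2 : 2 ≤ p := (Nat.prime_of_mem_primesLE hp).two_le
  have h3 : (2 : ℝ) ≤ p := by exact_mod_cast h2
  have h4 : (p : ℝ)⁻¹ ≤ 1 / 2 := by
    rw [inv_le_comm₀ (by linarith) (by norm_num)]
    norm_num
    exact h2
  have := inv_le_exp (x := (p : ℝ)⁻¹) (by positivity) h4
  rw [one_div]
  exact this

theorem hMer : Pool.Agent.Helper93.PL.StMer := by
  intro k ε hε
  -- `exp (10 k) (log w) ^ (2 k) = o(w)`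
  have hlim : Tendsto (fun x : ℝ => Real.log x ^ (2 * k) / x) atTop (𝓝 0) := by
    have h2 := (Real.isLittleO_pow_log_id_atTop (n := 2 * k))
    exact h2.tendsto_div_nhds_zero
  have hC : (0 : ℝ) < ε / Real.exp (10 * k) := by positivity
  have hev := (tendsto_order.1 hlim).2 _ hC
  have hev2 := tendsto_natCast_atTop_atTop.eventually hev
  obtain ⟨w₀, hw₀⟩ := eventually_atTop.1 hev2
  refine ⟨max w₀ 3, fun w hw => ?_⟩
  have hw1 : w₀ ≤ w := (le_max_left _ _).trans hw
  have hw3 : 3 ≤ w := (le_max_right _ _).trans hw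
  have h1 := hw₀ w hw1
  have hwpos : (0 : ℝ) < w := by exact_mod_cast (by omega : 0 < w)
  have h1w : (1 : ℝ) < w := by exact_mod_cast (by omega : 1 < w)
  have hlog : 0 < Real.log w := Real.log_pos h1w
  rw [div_lt_iff₀ hwpos] at h1
  have h2 : (primorial w : ℝ) / Nat.totient (primorial w) ≤ Real.exp 10 * Real.log w ^ 2 := by
    refine (ratio_le w).trans ?_
    have h3 := Pool.Agent.Helper28.PC.sum_inv_le (n := w) (by omega)
    calc Real.exp (2 * ∑ p ∈ w.primesLE, (1 : ℝ) / p) ≤ Real.exp (2 * (Real.log (Real.log w) + 5)) :=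
          Real.exp_le_exp.2 (by linarith)
      _ = Real.exp 10 * Real.log w ^ 2 := by
        have e : 2 * (Real.log (Real.log w) + 5) = 10 + Real.log (Real.log w) * 2 := by ring
        rw [e, Real.exp_add, Real.exp_mul, Real.exp_log hlog]
        norm_num
  have h0 : (0 : ℝ) ≤ (primorial w : ℝ) / Nat.totient (primorial w) := by positivity
  calc ((primorial w : ℝ) / Nat.totient (primorial w)) ^ k ≤ (Real.exp 10 * Real.log w ^ 2) ^ k :=
        pow_le_pow_left₀ h0 h2 k
    _ = Real.exp (10 * k) * Real.log w ^ (2 * k) := by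
      rw [mul_pow, ← pow_mul, ← Real.exp_nat_mul, mul_comm (k : ℝ) 10]
    _ ≤ Real.exp (10 * k) * (ε / Real.exp (10 * k) * w) := mul_le_mul_of_nonneg_left h1.le (Real.exp_pos _).le
    _ = ε * w := by field_simp

end Pool.Agent.Helper54.PL
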